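import Mathlib
import Pool.Agent.H63.FEW.BTQ
import Pool.Agent.H81.ED.Tail

/-!
Brun-Titchmarsh in all residue classes, and the second moment over the characters modulo `q` of sums
over primes beyond `q ^ 2`.
-/

set_option autoImplicit false

open Finset Real
open scoped ENNReal

namespace Pool.Agent.H5.GR

open Pool.FEW.BTQaux (S G lam mem_S one_mem_S G_pos lam_one abs_lam_le quad G_cmp)
open Pool.Agent.H86 (BtWeak.card_mult BtWeak.G_ge)

theorem card_mult_r (q r N D : ℕ) (hD : 0 < D) (hc : D.Coprime q) :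
    |(((Finset.Ioc 0 N).filter (fun m => D ∣ r + q * m)).card : ℝ) - N / D| ≤ 1 := by
  obtain ⟨s, hs⟩ : ∃ s : ℕ, q * s ≡ r [MOD D] := by
    obtain ⟨s, hs⟩ : ∃ s : ℕ, q * s ≡ 1 [MOD D] := by
      rcases Nat.eq_or_lt_of_le (Nat.succ_le_of_lt hD) with h | h
      · exact ⟨0, by rw [← h]; exact Nat.modEq_one⟩
      · obtain ⟨s, -, hs⟩ := Nat.exists_mul_mod_eq_one_of_coprime (Nat.coprime_comm.1 hc) h
        exact ⟨s, by rw [Nat.ModEq, hs, Nat.mod_eq_of_lt h]⟩
    refine ⟨s * r, ?_⟩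
    have := hs.mul_right r
    rwa [one_mul, mul_assoc] at this
  have key : ∀ m : ℕ, D ∣ r + q * m ↔ D ∣ s + m := by
    intro m
    have h1 : q * (s + m) ≡ r + q * m [MOD D] := by
      rw [mul_add]
      exact Nat.ModEq.add_right _ hs
    have h2 : D ∣ r + q * m ↔ D ∣ q * (s + m) := by
      rw [← Nat.modEq_zero_iff_dvd, ← Nat.modEq_zero_iff_dvd]
      exact ⟨fun h => h1.trans h, fun h => h1.symm.trans h⟩
    rw [h2]
    exact ⟨fun h => (Nat.Coprime.dvd_mul_left hc).1 h, fun h => Dvd.dvd.mul_left h q⟩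
  have h3 : ((Finset.Ioc 0 N).filter (fun m => D ∣ r + q * m)).card =
      ((Finset.Ioc s (s + N)).filter (D ∣ ·)).card := by
    apply Finset.card_bij (fun m _ => s + m)
    · intro m hm
      rw [Finset.mem_filter, Finset.mem_Ioc] at hm ⊢
      exact ⟨⟨by omega, by omega⟩, (key m).1 hm.2⟩
    · intro a _ b _ h
      omega
    · intro b hb
      rw [Finset.mem_filter, Finset.mem_Ioc] at hb
      refine ⟨b - s, ?_, by omega⟩
      rw [Finset.mem_filter, Finset.mem_Ioc]
      refine ⟨⟨by omega, by omega⟩, (key _).2 ?_⟩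
      rw [show s + (b - s) = b by omega]
      exact hb.2
  rw [h3]
  exact BtWeak.card_mult s N D hD

/-- Selberg's upper bound for the primes `r + q m`. -/
theorem primes_le_r {q R : ℕ} (r : ℕ) (hq : 1 ≤ q) (hR : 1 ≤ R) (N : ℕ) :
    (((Finset.Ioc 0 N).filter (fun m => (r + q * m).Prime)).card : ℝ) ≤
      R + N / G q R + (R : ℝ) ^ 4 := by
  classical
  set I := Finset.Ioc 0 N with hI
  have hsplit : (I.filter (fun m => (r + q * m).Prime)).card ≤
      R + (I.filter (fun m => (r + q * m).Prime ∧ R < r + q * m)).card := by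
    have e : I.filter (fun m => (r + q * m).Prime) ⊆
        (Finset.Icc 1 R) ∪ I.filter (fun m => (r + q * m).Prime ∧ R < r + q * m) := by
      intro m hm
      simp only [hI, Finset.mem_filter, Finset.mem_union, Finset.mem_Icc, Finset.mem_Ioc] at hm ⊢
      by_cases hmR : r + q * m ≤ R
      · left
        have : m ≤ q * m := Nat.le_mul_of_pos_left m hq
        exact ⟨by omega, by omega⟩
      · right; exact ⟨hm.1, hm.2, by omega⟩
    calc _ ≤ _ := Finset.card_le_card e
      _ ≤ _ := Finset.card_union_le _ _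
      _ = _ := by simp
  have hnn : ∀ m, 0 ≤ (∑ d ∈ (S q R).filter (· ∣ r + q * m), lam q R d) ^ 2 :=
    fun m => sq_nonneg _
  have h1 : ((I.filter (fun m => (r + q * m).Prime ∧ R < r + q * m)).card : ℝ) ≤
      ∑ m ∈ I, (∑ d ∈ (S q R).filter (· ∣ r + q * m), lam q R d) ^ 2 := by
    rw [Finset.card_eq_sum_ones, Nat.cast_sum]
    calc ∑ m ∈ I.filter (fun m => (r + q * m).Prime ∧ R < r + q * m), ((1 : ℕ) : ℝ)
        ≤ ∑ m ∈ I.filter (fun m => (r + q * m).Prime ∧ R < r + q * m),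
            (∑ d ∈ (S q R).filter (· ∣ r + q * m), lam q R d) ^ 2 := by
          apply Finset.sum_le_sum
          intro m hm
          simp only [Finset.mem_filter] at hm
          have e : (S q R).filter (· ∣ r + q * m) = {1} := by
            ext d
            simp only [Finset.mem_filter, Finset.mem_singleton]
            constructor
            · rintro ⟨hd, hdn⟩
              rcases (Nat.dvd_prime hm.2.1).1 hdn with h | h
              · exact h
              · exfalso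
                have := (mem_S.1 hd).1.2
                omega
            · rintro rfl
              exact ⟨one_mem_S hR, one_dvd _⟩
          rw [e, Finset.sum_singleton, lam_one hR]
          norm_num
      _ ≤ ∑ m ∈ I, (∑ d ∈ (S q R).filter (· ∣ r + q * m), lam q R d) ^ 2 :=
          Finset.sum_le_sum_of_subset_of_nonneg (Finset.filter_subset _ _) (fun n _ _ => hnn n)
  have h2 : ∑ m ∈ I, (∑ d ∈ (S q R).filter (· ∣ r + q * m), lam q R d) ^ 2 =
      ∑ d₁ ∈ S q R, ∑ d₂ ∈ S q R, lam q R d₁ * lam q R d₂ *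
        ((I.filter (fun m => Nat.lcm d₁ d₂ ∣ r + q * m)).card : ℝ) := by
    have : ∀ m ∈ I, (∑ d ∈ (S q R).filter (· ∣ r + q * m), lam q R d) ^ 2 =
        ∑ d₁ ∈ S q R, ∑ d₂ ∈ S q R,
          if Nat.lcm d₁ d₂ ∣ r + q * m then lam q R d₁ * lam q R d₂ else 0 := by
      intro m _
      rw [sq, Finset.sum_mul_sum, Finset.sum_filter]
      refine Finset.sum_congr rfl fun d₁ _ => ?_
      by_cases hd : d₁ ∣ r + q * m
      · simp only [hd, if_true, Nat.lcm_dvd_iff, true_and]
        rw [Finset.sum_filter]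
      · simp [hd, Nat.lcm_dvd_iff]
    rw [Finset.sum_congr rfl this, Finset.sum_comm]
    refine Finset.sum_congr rfl fun d₁ _ => ?_
    rw [Finset.sum_comm]
    refine Finset.sum_congr rfl fun d₂ _ => ?_
    rw [← Finset.sum_filter, Finset.sum_const, nsmul_eq_mul]
    ring
  have h3 : ∑ d₁ ∈ S q R, ∑ d₂ ∈ S q R, lam q R d₁ * lam q R d₂ *
        ((I.filter (fun m => Nat.lcm d₁ d₂ ∣ r + q * m)).card : ℝ) ≤
      ∑ d₁ ∈ S q R, ∑ d₂ ∈ S q R, (N * (lam q R d₁ * lam q R d₂ / (Nat.lcm d₁ d₂ : ℝ)) +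
        |lam q R d₁| * |lam q R d₂|) := by
    refine Finset.sum_le_sum fun d₁ hd₁ => Finset.sum_le_sum fun d₂ hd₂ => ?_
    have hpos : 0 < Nat.lcm d₁ d₂ := Nat.lcm_pos (mem_S.1 hd₁).1.1 (mem_S.1 hd₂).1.1
    have hcop : (Nat.lcm d₁ d₂).Coprime q :=
      Nat.Coprime.coprime_dvd_left (Nat.lcm_dvd_mul d₁ d₂)
        (Nat.Coprime.mul_left (mem_S.1 hd₁).2.2 (mem_S.1 hd₂).2.2)
    have hc := card_mult_r q r N _ hpos hcop
    have e : lam q R d₁ * lam q R d₂ *
        ((I.filter (fun m => Nat.lcm d₁ d₂ ∣ r + q * m)).card : ℝ) =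
        N * (lam q R d₁ * lam q R d₂ / (Nat.lcm d₁ d₂ : ℝ)) +
          (lam q R d₁ * lam q R d₂) *
            (((I.filter (fun m => Nat.lcm d₁ d₂ ∣ r + q * m)).card : ℝ) -
              N / (Nat.lcm d₁ d₂ : ℝ)) := by
      ring
    rw [e]
    have : (lam q R d₁ * lam q R d₂) *
        (((I.filter (fun m => Nat.lcm d₁ d₂ ∣ r + q * m)).card : ℝ) - N / (Nat.lcm d₁ d₂ : ℝ))
        ≤ |lam q R d₁| * |lam q R d₂| := by
      calc _ ≤ |(lam q R d₁ * lam q R d₂) *
            (((I.filter (fun m => Nat.lcm d₁ d₂ ∣ r + q * m)).card : ℝ) -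
              N / (Nat.lcm d₁ d₂ : ℝ))| := le_abs_self _
        _ = |lam q R d₁| * |lam q R d₂| *
            |(((I.filter (fun m => Nat.lcm d₁ d₂ ∣ r + q * m)).card : ℝ) -
              N / (Nat.lcm d₁ d₂ : ℝ))| := by
            rw [abs_mul, abs_mul]
        _ ≤ |lam q R d₁| * |lam q R d₂| * 1 := by
            gcongr
        _ = _ := mul_one _
    linarith
  have h4 : ∑ d₁ ∈ S q R, ∑ d₂ ∈ S q R, (N * (lam q R d₁ * lam q R d₂ / (Nat.lcm d₁ d₂ : ℝ)) +
        |lam q R d₁| * |lam q R d₂|) =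
      N * (1 / G q R) + (∑ d ∈ S q R, |lam q R d|) ^ 2 := by
    simp_rw [Finset.sum_add_distrib, ← Finset.mul_sum]
    rw [quad hR, sq, Finset.sum_mul]
  have h5 : ∑ d ∈ S q R, |lam q R d| ≤ (R : ℝ) ^ 2 := by
    calc ∑ d ∈ S q R, |lam q R d| ≤ ∑ d ∈ S q R, (R : ℝ) := by
          refine Finset.sum_le_sum fun d hd => (abs_lam_le hR d).trans ?_
          exact_mod_cast (mem_S.1 hd).1.2
      _ = (S q R).card * R := by rw [Finset.sum_const, nsmul_eq_mul]
      _ ≤ R * R := by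
          gcongr
          unfold S
          calc _ ≤ _ := Finset.card_filter_le _ _
            _ = R := by simp
      _ = (R : ℝ) ^ 2 := by ring
  have h6 : (∑ d ∈ S q R, |lam q R d|) ^ 2 ≤ (R : ℝ) ^ 4 := by
    have h0 : 0 ≤ ∑ d ∈ S q R, |lam q R d| := by positivity
    calc (∑ d ∈ S q R, |lam q R d|) ^ 2 ≤ ((R : ℝ) ^ 2) ^ 2 := by gcongr
      _ = _ := by ring
  have h7 : ((I.filter (fun m => (r + q * m).Prime)).card : ℝ) ≤
      R + ((I.filter (fun m => (r + q * m).Prime ∧ R < r + q * m)).card : ℝ) := by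
    exact_mod_cast hsplit
  have h8 : (N : ℝ) * (1 / G q R) = N / G q R := by ring
  linarith

/-- Brun-Titchmarsh in the residue class of `r` modulo `q`. -/
theorem bt_ap (q r : ℕ) (x : ℝ) (hq : 1 ≤ q) (hx : 2 ≤ x) (hqx : (q : ℝ) ^ 2 ≤ x) :
    (((Ioc q ⌊x⌋₊).filter (fun l : ℕ => l.Prime ∧ l ≡ r [MOD q])).card : ℝ) ≤
      40 * x / (q.totient * Real.log x) := by
  have hx0 : 0 < x := by linarith
  have hx1 : 1 ≤ x := by linarith
  have hlog : 0 < Real.log x := Real.log_pos (by linarith)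
  have hq0 : 0 < q := hq
  have hqR : (0 : ℝ) < q := by exact_mod_cast hq0
  have hφ : 0 < q.totient := Nat.totient_pos.2 hq0
  have hφR : (0 : ℝ) < q.totient := by exact_mod_cast hφ
  have hφq : (q.totient : ℝ) ≤ q := by exact_mod_cast Nat.totient_le q
  set R := ⌊x ^ (1 / 16 : ℝ)⌋₊ with hRdef
  have hR : 1 ≤ R := by
    rw [hRdef, Nat.one_le_floor_iff]
    exact Real.one_le_rpow hx1 (by positivity)
  have hRle : (R : ℝ) ≤ x ^ (1 / 16 : ℝ) := Nat.floor_le (by positivity)
  have hRgt : x ^ (1 / 16 : ℝ) < R + 1 := Nat.lt_floor_add_one _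
  set N := ⌊x / q⌋₊ with hN
  have hNle : (N : ℝ) ≤ x / q := Nat.floor_le (by positivity)
  have hmain := primes_le_r (r % q) hq hR N
  have hG := Pool.Agent.H86.BtWeak.G_ge hR
  have hG2 := G_cmp (R := R) hq
  have hlogR : 1 / 16 * Real.log x ≤ Real.log (R + 1) := by
    rw [← Real.log_rpow hx0]
    exact Real.log_le_log (by positivity) hRgt.le
  have hGp := G_pos (q := q) hR
  have hG' : (q.totient : ℝ) / q * (Real.log x / 32) ≤ G q R := by
    have h1 : Real.log x / 32 ≤ q / q.totient * G q R := by linarith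
    calc (q.totient : ℝ) / q * (Real.log x / 32) ≤
        (q.totient : ℝ) / q * (q / q.totient * G q R) := by gcongr
      _ = G q R := by field_simp
  have hcard : ((((Ioc q ⌊x⌋₊).filter (fun l : ℕ => l.Prime ∧ l ≡ r [MOD q])).card : ℕ) : ℝ) ≤
      (((Finset.Ioc 0 N).filter (fun m => (r % q + q * m).Prime)).card : ℝ) := by
    have h1 : ((Ioc q ⌊x⌋₊).filter (fun l : ℕ => l.Prime ∧ l ≡ r [MOD q])).card ≤
        ((Finset.Ioc 0 N).filter (fun m => (r % q + q * m).Prime)).card := by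
      apply Finset.card_le_card_of_injOn (fun l => l / q)
      · intro l hl
        rw [Finset.mem_coe, Finset.mem_filter, Finset.mem_Ioc] at hl
        obtain ⟨⟨h2, h3⟩, h4, h5⟩ := hl
        have hl2 : r % q + q * (l / q) = l := by
          rw [← h5]
          exact Nat.mod_add_div l q
        rw [Finset.mem_coe, Finset.mem_filter, Finset.mem_Ioc]
        change (0 < l / q ∧ l / q ≤ N) ∧ (r % q + q * (l / q)).Prime
        rw [hl2]
        refine ⟨⟨Nat.div_pos h2.le hq0, ?_⟩, h4⟩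
        rw [hN, Nat.le_floor_iff (by positivity), le_div_iff₀ hqR]
        have h7 : (l : ℝ) ≤ x := (Nat.le_floor_iff hx0.le).1 h3
        have h8 : ((r % q + q * (l / q) : ℕ) : ℝ) = (l : ℝ) := by rw [hl2]
        push_cast at h8
        have h9 : (0:ℝ) ≤ ((r % q : ℕ) : ℝ) := Nat.cast_nonneg _
        nlinarith
      · intro l hl l' hl' h
        rw [Finset.mem_coe, Finset.mem_filter, Finset.mem_Ioc] at hl hl'
        obtain ⟨-, -, h5⟩ := hl
        obtain ⟨-, -, h5'⟩ := hl'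
        change l / q = l' / q at h
        rw [← Nat.mod_add_div l q, ← Nat.mod_add_div l' q, h, h5, h5']
    exact_mod_cast h1
  have t1 : (N : ℝ) / G q R ≤ 32 * x / (q.totient * Real.log x) := by
    calc (N : ℝ) / G q R ≤ (x / q) / ((q.totient : ℝ) / q * (Real.log x / 32)) := by
          gcongr
      _ = 32 * x / (q.totient * Real.log x) := by field_simp
  have hR1 : (1 : ℝ) ≤ R := by exact_mod_cast hR
  have t2 : (R : ℝ) ^ 4 ≤ x ^ (1 / 4 : ℝ) := by
    calc (R : ℝ) ^ 4 ≤ (x ^ (1 / 16 : ℝ)) ^ 4 := by gcongr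
      _ = x ^ (1 / 4 : ℝ) := by
          rw [← Real.rpow_natCast, ← Real.rpow_mul hx0.le]
          norm_num
  have t3 : (R : ℝ) ≤ x ^ (1 / 4 : ℝ) := by
    refine le_trans ?_ t2
    calc (R : ℝ) = R ^ 1 := (pow_one _).symm
      _ ≤ R ^ 4 := pow_le_pow_right₀ hR1 (by norm_num)
  have t4 : 2 * x ^ (1 / 4 : ℝ) ≤ 8 * x / (q.totient * Real.log x) := by
    rw [le_div_iff₀ (by positivity)]
    have l1 : Real.log x ≤ x ^ (1 / 4 : ℝ) / (1 / 4) := Real.log_le_rpow_div hx0.le (by positivity)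
    have l2 : (q : ℝ) ≤ x ^ (1 / 2 : ℝ) := by
      rw [← Real.sqrt_eq_rpow]
      exact Real.le_sqrt_of_sq_le hqx
    calc 2 * x ^ (1 / 4 : ℝ) * (q.totient * Real.log x) ≤
        2 * x ^ (1 / 4 : ℝ) * (x ^ (1 / 2 : ℝ) * (x ^ (1 / 4 : ℝ) / (1 / 4))) := by
          have := hφq.trans l2
          gcongr
      _ = 8 * (x ^ (1 / 4 : ℝ) * x ^ (1 / 2 : ℝ) * x ^ (1 / 4 : ℝ)) := by ring
      _ = 8 * x := by
          rw [← Real.rpow_add hx0, ← Real.rpow_add hx0]
          norm_num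
  have t5 : 40 * x / (q.totient * Real.log x) = 32 * x / (q.totient * Real.log x) +
      8 * x / (q.totient * Real.log x) := by
    ring
  rw [t5]
  linarith

/-- the sum of `e^(-jh) / (j + 1)` -/
lemma sum_log_le {h : ℝ} (hh : 0 < h) (J : ℕ) :
    ∑ j ∈ range J, Real.exp (-(j * h)) / (j + 1) ≤ Real.exp h * Real.log (1 + 1 / h) := by
  set z : ℝ := Real.exp (-h) with hz
  have hz0 : 0 < z := Real.exp_pos _
  have hz1 : z < 1 := by
    rw [hz, Real.exp_lt_one_iff]
    linarith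
  have h1 := Real.hasSum_pow_div_log_of_abs_lt_one (x := z) (by rw [abs_of_pos hz0]; exact hz1)
  have h2 : ∑ j ∈ range J, z ^ (j + 1) / ((j:ℝ) + 1) ≤ -Real.log (1 - z) :=
    sum_le_hasSum _ (fun j _ => by positivity) h1
  have h3 : -Real.log (1 - z) ≤ Real.log (1 + 1 / h) := by
    rw [← Real.log_inv]
    apply Real.log_le_log (by rw [inv_pos]; linarith)
    rw [inv_le_comm₀ (by linarith) (by positivity)]
    have h4 : 1 + h ≤ Real.exp h := by
      have := Real.add_one_le_exp h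
      linarith
    have h5 : z ≤ 1 / (1 + h) := by
      rw [hz, Real.exp_neg, inv_eq_one_div]
      exact one_div_le_one_div_of_le (by linarith) h4
    have h6 : (1 + 1 / h)⁻¹ = 1 - 1 / (1 + h) := by
      field_simp
      ring
    rw [h6]
    linarith
  have h7 : ∑ j ∈ range J, Real.exp (-(j * h)) / (j + 1) =
      Real.exp h * ∑ j ∈ range J, z ^ (j + 1) / ((j:ℝ) + 1) := by
    rw [mul_sum]
    apply sum_congr rfl
    intro j _
    rw [mul_div_assoc']
    congr 1
    rw [hz, ← Real.exp_nat_mul, ← Real.exp_add]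
    congr 1
    push_cast
    ring
  rw [h7]
  exact mul_le_mul_of_nonneg_left (h2.trans h3) (Real.exp_pos _).le

/-- the tail of the prime sum in a residue class -/
lemma class_tail {q : ℕ} (hq : 1 ≤ q) (r : ℕ) {h : ℝ} (hh : 0 < h) (h1 : h ≤ 1) (F : Finset ℕ)
    (hF : ∀ p ∈ F, p.Prime ∧ q ^ 2 < p ∧ p ≡ r [MOD q]) :
    ∑ p ∈ F, (p:ℝ) ^ (-(1 + h)) ≤ 40 * Real.exp 2 * Real.log (1 + 1 / h) / q.totient := by
  have hq0 : 0 < q := hq
  have hφR : (0 : ℝ) < q.totient := by exact_mod_cast Nat.totient_pos.2 hq0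
  set J : ℕ := F.sup (fun p => ⌊Real.log p⌋₊) + 1 with hJ
  have hmaps : ∀ p ∈ F, ⌊Real.log p⌋₊ ∈ range J := by
    intro p hp
    rw [mem_range, hJ, Nat.lt_succ_iff]
    exact Finset.le_sup (f := fun p : ℕ => ⌊Real.log p⌋₊) hp
  have e1 := sum_fiberwise_of_maps_to hmaps (fun p : ℕ => (p:ℝ) ^ (-(1 + h)))
  rw [← e1]
  have h2 : ∀ j ∈ range J, ∑ p ∈ F.filter (fun p : ℕ => ⌊Real.log (p:ℝ)⌋₊ = j), (p:ℝ) ^ (-(1 + h)) ≤
      40 * Real.exp 1 / q.totient * (Real.exp (-(j * h)) / (j + 1)) := by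
    intro j _
    set Fj := F.filter (fun p : ℕ => ⌊Real.log (p:ℝ)⌋₊ = j) with hFj
    rcases Fj.eq_empty_or_nonempty with h0 | ⟨p0, hp0⟩
    · rw [h0, sum_empty]
      positivity
    · have hlog : ∀ p ∈ Fj, (j:ℝ) ≤ Real.log p ∧ Real.log p < j + 1 := by
        intro p hp
        rw [hFj, mem_filter] at hp
        have h0 : 0 ≤ Real.log p := Real.log_natCast_nonneg p
        rw [← hp.2]
        exact ⟨Nat.floor_le h0, Nat.lt_floor_add_one _⟩
      have hpos : ∀ p ∈ Fj, (0:ℝ) < p := by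
        intro p hp
        rw [hFj, mem_filter] at hp
        exact_mod_cast (hF p hp.1).1.pos
      set x : ℝ := Real.exp (j + 1) with hx
      have hlt : ∀ p ∈ Fj, (p:ℝ) < x := fun p hp => by
        rw [hx, ← Real.log_lt_iff_lt_exp (hpos p hp)]
        exact (hlog p hp).2
      have hx2 : 2 ≤ x := by
        rw [hx]
        have h3 := Real.add_one_le_exp ((j:ℝ) + 1)
        have h4 : (0:ℝ) ≤ j := Nat.cast_nonneg j
        linarith
      have hqx : (q:ℝ) ^ 2 ≤ x := by
        have h3 := hlt p0 hp0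
        rw [hFj, mem_filter] at hp0
        have h4 : ((q ^ 2 : ℕ) : ℝ) < p0 := by exact_mod_cast (hF p0 hp0.1).2.1
        push_cast at h4
        linarith
      have hcard : (Fj.card : ℝ) ≤ 40 * x / (q.totient * Real.log x) := by
        refine le_trans ?_ (bt_ap q r x hq hx2 hqx)
        have : Fj ⊆ (Ioc q ⌊x⌋₊).filter (fun l : ℕ => l.Prime ∧ l ≡ r [MOD q]) := by
          intro p hp
          have h3 := hlt p hp
          rw [hFj, mem_filter] at hp
          obtain ⟨h5, h6, h7⟩ := hF p hp.1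
          rw [mem_filter, mem_Ioc]
          refine ⟨⟨?_, ?_⟩, h5, h7⟩
          · have : q ≤ q ^ 2 := Nat.le_self_pow (by norm_num) q
            omega
          · exact Nat.le_floor h3.le
        exact_mod_cast card_le_card this
      have hterm : ∀ p ∈ Fj, (p:ℝ) ^ (-(1 + h)) ≤ Real.exp (-(j * (1 + h))) := by
        intro p hp
        rw [Real.rpow_def_of_pos (hpos p hp), Real.exp_le_exp]
        have := (hlog p hp).1
        nlinarith
      calc ∑ p ∈ Fj, (p:ℝ) ^ (-(1 + h)) ≤ ∑ p ∈ Fj, Real.exp (-(j * (1 + h))) := sum_le_sum hterm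
        _ = Fj.card * Real.exp (-(j * (1 + h))) := by rw [sum_const, nsmul_eq_mul]
        _ ≤ (40 * x / (q.totient * Real.log x)) * Real.exp (-(j * (1 + h))) :=
            mul_le_mul_of_nonneg_right hcard (Real.exp_pos _).le
        _ = 40 * Real.exp 1 / q.totient * (Real.exp (-(j * h)) / (j + 1)) := by
            have h3 : Real.log x = j + 1 := by rw [hx, Real.log_exp]
            have h4 : x * Real.exp (-(j * (1 + h))) = Real.exp 1 * Real.exp (-(j * h)) := by
              rw [hx, ← Real.exp_add, ← Real.exp_add]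
              congr 1
              ring
            rw [h3]
            calc 40 * x / (q.totient * (j + 1)) * Real.exp (-(j * (1 + h))) =
                40 / (q.totient * (j + 1)) * (x * Real.exp (-(j * (1 + h)))) := by ring
              _ = 40 / (q.totient * (j + 1)) * (Real.exp 1 * Real.exp (-(j * h))) := by rw [h4]
              _ = _ := by
                field_simp
  calc _ ≤ ∑ j ∈ range J, 40 * Real.exp 1 / q.totient * (Real.exp (-(j * h)) / (j + 1)) := sum_le_sum h2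
    _ = 40 * Real.exp 1 / q.totient * ∑ j ∈ range J, Real.exp (-(j * h)) / (j + 1) := by rw [mul_sum]
    _ ≤ 40 * Real.exp 1 / q.totient * (Real.exp h * Real.log (1 + 1 / h)) :=
        mul_le_mul_of_nonneg_left (sum_log_le hh J) (by positivity)
    _ ≤ 40 * Real.exp 1 / q.totient * (Real.exp 1 * Real.log (1 + 1 / h)) := by
        apply mul_le_mul_of_nonneg_left _ (by positivity)
        apply mul_le_mul_of_nonneg_right (Real.exp_le_exp.mpr h1)
        apply Real.log_nonneg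
        have : 0 < 1 / h := by positivity
        linarith
    _ = _ := by
        have : Real.exp 2 = Real.exp 1 * Real.exp 1 := by rw [← Real.exp_add]; norm_num
        rw [this]
        ring

open Classical in
/-- the same in `ℝ≥0∞` -/
lemma class_tail' {q : ℕ} (hq : 1 ≤ q) (r : ℕ) {b h : ℝ} (hb : 0 ≤ b) (hh : 0 < h) (h1 : h ≤ 1) {y : ℕ}
    (hy : q ^ 2 ≤ y) :
    ∑' p : {p : ℕ // p.Prime ∧ y < p}, (if (p:ℕ) ≡ r [MOD q] then
      ENNReal.ofReal (b * ((p:ℕ):ℝ) ^ (-(1 + h))) else 0) ≤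
      ENNReal.ofReal (b * (40 * Real.exp 2 * Real.log (1 + 1 / h) / q.totient)) := by
  rw [ENNReal.tsum_eq_iSup_sum]
  apply iSup_le
  intro F
  rw [← sum_filter]
  have hnn : ∀ p ∈ F.filter (fun p : {p : ℕ // p.Prime ∧ y < p} => (p:ℕ) ≡ r [MOD q]),
      0 ≤ b * ((p:ℕ):ℝ) ^ (-(1 + h)) := by
    intro p _
    positivity
  rw [← ENNReal.ofReal_sum_of_nonneg hnn]
  apply ENNReal.ofReal_le_ofReal
  rw [← mul_sum]
  apply mul_le_mul_of_nonneg_left _ hb
  have h2 := class_tail hq r hh h1 ((F.filter (fun p : {p : ℕ // p.Prime ∧ y < p} => (p:ℕ) ≡ r [MOD q])).map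
    (Function.Embedding.subtype _)) (by
      intro p hp
      rw [mem_map] at hp
      obtain ⟨p', hp', rfl⟩ := hp
      rw [mem_filter] at hp'
      exact ⟨p'.2.1, lt_of_le_of_lt hy p'.2.2, hp'.2⟩)
  rw [sum_map] at h2
  exact h2

/-- The second moment over all characters modulo `q` of a sum over the primes beyond `q ^ 2`. -/
theorem tail_bt {q : ℕ} [NeZero q] {b h : ℝ} (a : ℕ → ℂ) {y : ℕ} (hb : 0 ≤ b) (hh : 0 < h) (h1 : h ≤ 1)
    (hy : q ^ 2 ≤ y) (ha : ∀ p : ℕ, p.Prime → y < p → ‖a p‖ ≤ b * (p:ℝ) ^ (-(1 + h))) :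
    ∑ ψ : DirichletCharacter ℂ q, ‖∑' p : {p : ℕ // p.Prime ∧ y < p}, a p * ψ (p:ℕ)‖ ^ 2 ≤
      (40 * Real.exp 2 * b * Real.log (1 + 1 / h)) ^ 2 := by
  classical
  have hq : 1 ≤ q := Nat.pos_of_ne_zero (NeZero.ne q)
  have hφR : (0 : ℝ) < q.totient := by exact_mod_cast Nat.totient_pos.2 hq
  have hlog : 0 ≤ Real.log (1 + 1 / h) := by
    apply Real.log_nonneg
    have : 0 < 1 / h := by positivity
    linarith
  set M : ℝ := 40 * Real.exp 2 * b * Real.log (1 + 1 / h) with hM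
  have hM0 : 0 ≤ M := by positivity
  set Jt := {p : ℕ // p.Prime ∧ y < p} with hJt
  have hC : Summable fun p : Jt => b * ((p:ℕ):ℝ) ^ (-(1 + h)) := by
    apply Summable.mul_left
    have : Summable fun n : ℕ => (n:ℝ) ^ (-(1 + h)) := by
      rw [Real.summable_nat_rpow]
      linarith
    exact this.comp_injective Subtype.val_injective
  have key := Pool.Agent.H81.ED.second_moment (q := q) (J := Jt) (fun p => (p:ℕ)) (c := fun p => a p) hC
    (fun p => ha p p.2.1 p.2.2)
  have h2 : ∑' x : Jt × Jt, (if Pool.Agent.H81.ED.Cg q (x.1:ℕ) (x.2:ℕ) then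
      ENNReal.ofReal (b * ((x.1:ℕ):ℝ) ^ (-(1 + h))) * ENNReal.ofReal (b * ((x.2:ℕ):ℝ) ^ (-(1 + h))) else 0) ≤
      ENNReal.ofReal M * ENNReal.ofReal (M / q.totient) := by
    rw [ENNReal.tsum_prod']
    have h3 : ∀ p : Jt, ∑' p' : Jt, (if Pool.Agent.H81.ED.Cg q (p:ℕ) (p':ℕ) then
        ENNReal.ofReal (b * ((p:ℕ):ℝ) ^ (-(1 + h))) * ENNReal.ofReal (b * ((p':ℕ):ℝ) ^ (-(1 + h))) else 0) ≤
        ENNReal.ofReal (b * ((p:ℕ):ℝ) ^ (-(1 + h))) * ENNReal.ofReal (M / q.totient) := by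
      intro p
      calc _ ≤ ∑' p' : Jt, ENNReal.ofReal (b * ((p:ℕ):ℝ) ^ (-(1 + h))) *
            (if (p':ℕ) ≡ (p:ℕ) [MOD q] then ENNReal.ofReal (b * ((p':ℕ):ℝ) ^ (-(1 + h))) else 0) := by
            apply ENNReal.tsum_le_tsum
            intro p'
            by_cases hc : Pool.Agent.H81.ED.Cg q (p:ℕ) (p':ℕ)
            · have h4 : (p':ℕ) ≡ (p:ℕ) [MOD q] := ((ZMod.natCast_eq_natCast_iff _ _ _).mp hc.1).symm
              rw [if_pos hc, if_pos h4]
            · rw [if_neg hc]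
              exact zero_le
        _ = ENNReal.ofReal (b * ((p:ℕ):ℝ) ^ (-(1 + h))) * ∑' p' : Jt,
            (if (p':ℕ) ≡ (p:ℕ) [MOD q] then ENNReal.ofReal (b * ((p':ℕ):ℝ) ^ (-(1 + h))) else 0) :=
              ENNReal.tsum_mul_left
        _ ≤ _ := by
            apply mul_le_mul_right
            refine (class_tail' hq (p:ℕ) hb hh h1 hy).trans (le_of_eq ?_)
            congr 1
            rw [hM]
            ring
    calc _ ≤ ∑' p : Jt, ENNReal.ofReal (b * ((p:ℕ):ℝ) ^ (-(1 + h))) * ENNReal.ofReal (M / q.totient) :=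
          ENNReal.tsum_le_tsum h3
      _ = (∑' p : Jt, ENNReal.ofReal (b * ((p:ℕ):ℝ) ^ (-(1 + h)))) * ENNReal.ofReal (M / q.totient) :=
          ENNReal.tsum_mul_right
      _ ≤ _ := by
          apply mul_le_mul_left
          have h4 := class_tail' (le_refl 1) 0 hb hh h1 (y := y) (by
            have : 1 ≤ q ^ 2 := Nat.one_le_pow _ _ hq
            omega)
          have h5 : ∀ p : Jt, (p:ℕ) ≡ 0 [MOD 1] := fun p => Nat.modEq_one
          simp only [h5, if_true] at h4
          refine h4.trans (le_of_eq ?_)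
          congr 1
          rw [hM, Nat.totient_one]
          push_cast
          ring
  have h6 : ENNReal.ofReal (∑ ψ : DirichletCharacter ℂ q,
      ‖∑' p : {p : ℕ // p.Prime ∧ y < p}, a p * ψ (p:ℕ)‖ ^ 2) ≤ ENNReal.ofReal (M ^ 2) := by
    refine key.trans ?_
    calc _ ≤ (q.totient : ℝ≥0∞) * (ENNReal.ofReal M * ENNReal.ofReal (M / q.totient)) := by
          apply mul_le_mul_right
          exact h2
      _ = ENNReal.ofReal (M ^ 2) := by
          rw [← ENNReal.ofReal_natCast, ← ENNReal.ofReal_mul hM0, ← ENNReal.ofReal_mul hφR.le]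
          congr 1
          field_simp
  rwa [ENNReal.ofReal_le_ofReal_iff (by positivity)] at h6

end Pool.Agent.H5.GR
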