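import Mathlib
import Pool.Agent.H86.EDGE.MVT
import Pool.Agent.H48.ER.Rate

/-!
Moments of short Euler products on the edge of absolute convergence.
-/

open Finset Complex MeasureTheory Filter Topology

namespace Pool.Agent.H5.GR

open Pool.ER (ee norm_ee continuous_ee AA)
open Pool.Agent.H86.EDGE (moment)
open Pool.Agent.H89.EdgeBasic (Hyp)
open Pool.Agent.H91.Edge (Yf ft adm_ft)

/-- the exponential against a truncated exponential series -/
lemma exp_split (w : ℂ) (K : ℕ) (h : ‖w‖ ≤ (K + 1) / 2) :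
    ‖cexp w‖ ^ 2 ≤ 4 * (∑ m ∈ range K, (2 ^ m / (m.factorial : ℝ) ^ 2) * ‖w‖ ^ (2 * m)) +
      (8 / (K.factorial : ℝ) ^ 2) * ‖w‖ ^ (2 * K) := by
  have hK : ‖w‖ / K.succ ≤ 1 / 2 := by
    rw [div_le_iff₀ (by positivity)]
    push_cast
    linarith
  have h1 := Complex.exp_bound' hK
  set s : ℂ := ∑ m ∈ range K, w ^ m / m.factorial with hs
  have h2 : ‖cexp w‖ ≤ ‖s‖ + ‖w‖ ^ K / K.factorial * 2 := by
    have : cexp w = s + (cexp w - s) := by ring
    calc ‖cexp w‖ = ‖s + (cexp w - s)‖ := by rw [← this]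
      _ ≤ ‖s‖ + ‖cexp w - s‖ := norm_add_le _ _
      _ ≤ _ := by linarith
  have h3 : ‖s‖ ≤ ∑ m ∈ range K, ‖w‖ ^ m / m.factorial := by
    rw [hs]
    refine norm_sum_le_of_le _ fun m _ => ?_
    rw [norm_div, norm_pow, Complex.norm_natCast]
  have h4 : (∑ m ∈ range K, ‖w‖ ^ m / m.factorial) ^ 2 ≤
      (∑ m ∈ range K, (1/2 : ℝ) ^ m) * ∑ m ∈ range K, (2 ^ m / (m.factorial : ℝ) ^ 2) * ‖w‖ ^ (2 * m) := by
    apply sum_sq_le_sum_mul_sum_of_sq_le_mul
    · intro m _; positivity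
    · intro m _; positivity
    · intro m _
      apply le_of_eq
      have : (2:ℝ) ^ m ≠ 0 := by positivity
      rw [div_pow, pow_mul', one_div, inv_pow]
      field_simp
  have h5 : ∑ m ∈ range K, (1/2 : ℝ) ^ m ≤ 2 := sum_geometric_two_le K
  have h6 : 0 ≤ ∑ m ∈ range K, (2 ^ m / (m.factorial : ℝ) ^ 2) * ‖w‖ ^ (2 * m) :=
    sum_nonneg fun m _ => by positivity
  have h7 : ‖s‖ ^ 2 ≤ 2 * ∑ m ∈ range K, (2 ^ m / (m.factorial : ℝ) ^ 2) * ‖w‖ ^ (2 * m) := by
    calc ‖s‖ ^ 2 ≤ (∑ m ∈ range K, ‖w‖ ^ m / m.factorial) ^ 2 := pow_le_pow_left₀ (norm_nonneg _) h3 2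
      _ ≤ _ := h4
      _ ≤ _ := mul_le_mul_of_nonneg_right h5 h6
  have h8 : (8 / (K.factorial : ℝ) ^ 2) * ‖w‖ ^ (2 * K) = 2 * (‖w‖ ^ K / K.factorial * 2) ^ 2 := by
    rw [pow_mul']
    ring
  rw [h8]
  calc ‖cexp w‖ ^ 2 ≤ (‖s‖ + ‖w‖ ^ K / K.factorial * 2) ^ 2 := pow_le_pow_left₀ (norm_nonneg _) h2 2
    _ ≤ 2 * ‖s‖ ^ 2 + 2 * (‖w‖ ^ K / K.factorial * 2) ^ 2 := by
      nlinarith [sq_nonneg (‖s‖ - ‖w‖ ^ K / K.factorial * 2)]
    _ ≤ _ := by linarith

/-- the mean square of the exponential of a sum over primes -/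
theorem exp_mean {M : ℕ} (S : Finset ℕ) (hS : ∀ p ∈ S, p.Prime ∧ p ≤ M) (c : ℕ → ℂ) (a : ℝ) {T V : ℝ}
    (hT : 0 ≤ T) (hV : ∑ p ∈ S, ‖c p‖ ^ 2 ≤ V) (K : ℕ) (hK : ∑ p ∈ S, ‖c p‖ ≤ (K + 1) / 2)
    (hKT : ∀ k : ℕ, k ≤ K → 4 * (M:ℝ) ^ k * (1 + k * Real.log M) ≤ T) :
    ∫ t in a..(a + T), ‖cexp (∑ p ∈ S, c p * ee (Real.log p) t)‖ ^ 2 ≤ 24 * Real.exp (2 * V) * T := by
  have hV0 : 0 ≤ ∑ p ∈ S, ‖c p‖ ^ 2 := sum_nonneg fun p _ => by positivity
  have hV1 : 0 ≤ V := hV0.trans hV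
  set F : ℝ → ℂ := fun t => ∑ p ∈ S, c p * ee (Real.log p) t with hF
  have hFc : Continuous F := continuous_finsetSum _ fun p _ => (continuous_ee _).const_mul _
  have hFn : ∀ t, ‖F t‖ ≤ (K + 1) / 2 := by
    intro t
    refine le_trans ?_ hK
    simp only [hF]
    refine norm_sum_le_of_le _ fun p _ => ?_
    rw [norm_mul, norm_ee, mul_one]
  have hmom : ∀ k : ℕ, k ≤ K → ∫ t in a..(a + T), ‖F t‖ ^ (2 * k) ≤ 2 * T * (k.factorial * V ^ k) := by
    intro k hk
    refine (moment S hS c a hT k).trans ?_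
    apply mul_le_mul
    · have := hKT k hk
      linarith
    · apply mul_le_mul_of_nonneg_left _ (by positivity)
      exact pow_le_pow_left₀ hV0 hV k
    · positivity
    · linarith
  have hle : ∀ t, ‖cexp (F t)‖ ^ 2 ≤
      4 * (∑ m ∈ range K, (2 ^ m / (m.factorial : ℝ) ^ 2) * ‖F t‖ ^ (2 * m)) +
      (8 / (K.factorial : ℝ) ^ 2) * ‖F t‖ ^ (2 * K) := fun t => exp_split (F t) K (hFn t)
  have haT : a ≤ a + T := by linarith
  have hi : ∀ (r : ℝ) (k : ℕ), IntervalIntegrable (fun t => r * ‖F t‖ ^ (2 * k)) volume a (a + T) := by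
    intro r k
    apply Continuous.intervalIntegrable
    fun_prop
  have h1 : ∫ t in a..(a + T), ‖cexp (F t)‖ ^ 2 ≤
      ∫ t in a..(a + T), (4 * (∑ m ∈ range K, (2 ^ m / (m.factorial : ℝ) ^ 2) * ‖F t‖ ^ (2 * m)) +
      (8 / (K.factorial : ℝ) ^ 2) * ‖F t‖ ^ (2 * K)) := by
    apply intervalIntegral.integral_mono_on haT
    · apply Continuous.intervalIntegrable
      fun_prop
    · apply Continuous.intervalIntegrable
      fun_prop
    · intro t _
      exact hle t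
  have h2 : ∫ t in a..(a + T), (4 * (∑ m ∈ range K, (2 ^ m / (m.factorial : ℝ) ^ 2) * ‖F t‖ ^ (2 * m)) +
      (8 / (K.factorial : ℝ) ^ 2) * ‖F t‖ ^ (2 * K)) =
      4 * (∑ m ∈ range K, (2 ^ m / (m.factorial : ℝ) ^ 2) * ∫ t in a..(a + T), ‖F t‖ ^ (2 * m)) +
      (8 / (K.factorial : ℝ) ^ 2) * ∫ t in a..(a + T), ‖F t‖ ^ (2 * K) := by
    rw [intervalIntegral.integral_add]
    · rw [intervalIntegral.integral_const_mul, intervalIntegral.integral_const_mul,
        intervalIntegral.integral_finsetSum]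
      · simp_rw [intervalIntegral.integral_const_mul]
      · intro m _
        exact hi _ m
    · apply Continuous.intervalIntegrable
      fun_prop
    · exact hi _ K
  have hfac : ∀ k : ℕ, (0:ℝ) < k.factorial := fun k => by exact_mod_cast k.factorial_pos
  have h3 : ∑ m ∈ range K, (2 ^ m / (m.factorial : ℝ) ^ 2) * ∫ t in a..(a + T), ‖F t‖ ^ (2 * m) ≤
      2 * T * Real.exp (2 * V) := by
    calc _ ≤ ∑ m ∈ range K, 2 * T * ((2 * V) ^ m / m.factorial) := by
          apply sum_le_sum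
          intro m hm
          have hm' : m ≤ K := (mem_range.mp hm).le
          calc _ ≤ (2 ^ m / (m.factorial : ℝ) ^ 2) * (2 * T * (m.factorial * V ^ m)) :=
                mul_le_mul_of_nonneg_left (hmom m hm') (by positivity)
            _ = _ := by
                have := (hfac m).ne'
                rw [mul_pow]
                field_simp
      _ = 2 * T * ∑ m ∈ range K, (2 * V) ^ m / m.factorial := by rw [mul_sum]
      _ ≤ _ := mul_le_mul_of_nonneg_left (Real.sum_le_exp_of_nonneg (by positivity) K) (by positivity)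
  have h4 : (8 / (K.factorial : ℝ) ^ 2) * ∫ t in a..(a + T), ‖F t‖ ^ (2 * K) ≤ 16 * T * Real.exp (2 * V) := by
    calc _ ≤ (8 / (K.factorial : ℝ) ^ 2) * (2 * T * (K.factorial * V ^ K)) :=
          mul_le_mul_of_nonneg_left (hmom K le_rfl) (by positivity)
      _ = 16 * T * (V ^ K / K.factorial) := by
          have := (hfac K).ne'
          field_simp
          ring
      _ ≤ 16 * T * Real.exp (2 * V) := by
          apply mul_le_mul_of_nonneg_left _ (by positivity)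
          refine (Real.pow_div_factorial_le_exp V hV1 K).trans ?_
          rw [Real.exp_le_exp]
          linarith
  rw [h2] at h1
  linarith

/-- the size conditions hold for large `T` -/
lemma size_cond (A B : ℝ) (hB : 0 < B) :
    ∃ T0 : ℝ, 3 ≤ T0 ∧ ∀ T : ℝ, T0 ≤ T → ∃ (D : ℝ) (K : ℕ), 0 ≤ D ∧ Real.log T ^ B ≤ Real.exp D ∧
      A * (1 + D) ≤ (K + 1) / 2 ∧ K * D ≤ Real.log T / 2 ∧
      4 * Real.exp (Real.log T / 2) * (1 + Real.log T / 2) ≤ T := by
  have hlog : Tendsto Real.log atTop atTop := Real.tendsto_log_atTop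
  have hloglog : Tendsto (fun T => Real.log (Real.log T)) atTop atTop := hlog.comp hlog
  have e1 : ∀ᶠ y : ℝ in atTop, 4 * (B * y + 1) * A * (1 + (B * y + 1)) ≤ Real.exp y := by
    have h0 : Tendsto (fun y : ℝ => 4 * A * B ^ 2 * (y ^ 2 * Real.exp (-y)) +
        12 * A * B * (y ^ 1 * Real.exp (-y)) + 8 * A * (y ^ 0 * Real.exp (-y))) atTop
        (𝓝 (4 * A * B ^ 2 * 0 + 12 * A * B * 0 + 8 * A * 0)) :=
      (((Real.tendsto_pow_mul_exp_neg_atTop_nhds_zero 2).const_mul _).add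
        ((Real.tendsto_pow_mul_exp_neg_atTop_nhds_zero 1).const_mul _)).add
        ((Real.tendsto_pow_mul_exp_neg_atTop_nhds_zero 0).const_mul _)
    have h1 : 4 * A * B ^ 2 * 0 + 12 * A * B * 0 + 8 * A * 0 < 1 := by norm_num
    filter_upwards [h0.eventually_lt_const h1] with y hy
    have h2 : (4 * (B * y + 1) * A * (1 + (B * y + 1))) * Real.exp (-y) < 1 := by
      calc _ = _ := by ring
        _ < 1 := hy
    have h3 : 0 < Real.exp (-y) := Real.exp_pos _
    have h4 : Real.exp y * Real.exp (-y) = 1 := by rw [← Real.exp_add]; simp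
    by_contra hcon
    push Not at hcon
    nlinarith
  have e2 : ∀ᶠ T : ℝ in atTop, 3 ≤ T ∧ 16 ≤ Real.log T ∧ 0 ≤ Real.log (Real.log T) ∧
      4 * (B * Real.log (Real.log T) + 1) * A * (1 + (B * Real.log (Real.log T) + 1)) ≤
        Real.exp (Real.log (Real.log T)) := by
    filter_upwards [eventually_ge_atTop (3:ℝ), hlog.eventually_ge_atTop 16, hloglog.eventually_ge_atTop 0,
      hloglog.eventually e1] with T h1 h2 h3 h4
    exact ⟨h1, h2, h3, h4⟩
  obtain ⟨T0, hT0⟩ := eventually_atTop.mp e2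
  refine ⟨max T0 3, le_max_right _ _, fun T hT => ?_⟩
  obtain ⟨h3, h16, hy0, hy⟩ := hT0 T ((le_max_left _ _).trans hT)
  set u := Real.log T with hu
  set y := Real.log u with hyd
  have hu0 : 0 < u := by linarith
  have hexpy : Real.exp y = u := Real.exp_log hu0
  rw [hexpy] at hy
  set D : ℝ := B * y + 1 with hD
  have hD1 : 1 ≤ D := by
    have : 0 ≤ B * y := by positivity
    linarith
  refine ⟨D, ⌊u / (2 * D)⌋₊, by linarith, ?_, ?_, ?_, ?_⟩
  · rw [Real.rpow_def_of_pos hu0, Real.exp_le_exp, hD, hyd]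
    linarith
  · have h5 : u / (2 * D) < ⌊u / (2 * D)⌋₊ + 1 := Nat.lt_floor_add_one _
    have h6 : A * (1 + D) ≤ u / (2 * D) / 2 := by
      rw [div_div, le_div_iff₀ (by positivity)]
      calc A * (1 + D) * (2 * D * 2) = 4 * D * A * (1 + D) := by ring
        _ ≤ u := hy
    linarith
  · have h5 : (⌊u / (2 * D)⌋₊ : ℝ) ≤ u / (2 * D) := Nat.floor_le (by positivity)
    calc (⌊u / (2 * D)⌋₊ : ℝ) * D ≤ u / (2 * D) * D := mul_le_mul_of_nonneg_right h5 (by linarith)
      _ = u / 2 := by field_simp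
  · have h5 : T = Real.exp (u / 2) * Real.exp (u / 2) := by
      rw [← Real.exp_add, add_halves, hu, Real.exp_log (by linarith)]
    have h6 := Real.quadratic_le_exp_of_nonneg (x := u / 2) (by positivity)
    have h7 : 4 * (1 + u / 2) ≤ Real.exp (u / 2) := by nlinarith
    have h8 : 0 < Real.exp (u / 2) := Real.exp_pos _
    calc 4 * Real.exp (u / 2) * (1 + u / 2) = Real.exp (u / 2) * (4 * (1 + u / 2)) := by ring
      _ ≤ Real.exp (u / 2) * Real.exp (u / 2) := mul_le_mul_of_nonneg_left h7 h8.le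
      _ = T := h5.symm

lemma sum_inv_sq (x : ℕ) : ∑ n ∈ range (x + 1), ((n:ℝ) ^ 2)⁻¹ ≤ 2 := by
  have h1 : ∑ n ∈ range (x + 1), ((n:ℝ) ^ 2)⁻¹ = ∑ n ∈ Ioo 0 (x + 1), ((n:ℝ) ^ 2)⁻¹ := by
    symm
    apply sum_subset
    · intro n hn
      rw [mem_Ioo] at hn
      rw [mem_range]
      exact hn.2
    · intro n hn hn2
      rw [mem_range] at hn
      rw [mem_Ioo] at hn2
      have : n = 0 := by omega
      rw [this]
      simp
  have h2 := sum_Ioo_inv_sq_le (α := ℝ) 0 (x + 1)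
  rw [h1]
  simpa using h2

/-- moments of short Euler products on the edge -/
theorem short_moment (b : ℕ) (l B : ℝ) (hB : 0 < B) : ∃ C T0 : ℝ, 3 ≤ T0 ∧
    ∀ (N i : ℕ) (P : ℕ → Polynomial ℂ), Hyp N i b P → ∀ T : ℝ, T0 ≤ T →
      ∀ x : ℕ, (x:ℝ) ≤ Real.log T ^ B → ∀ a : ℝ,
        ∫ t in a..(a + T), ‖Yf N i P x t‖ ^ l ≤ C * T := by
  set A : ℝ := b * |l| / 2 with hAd
  have hA : 0 ≤ A := by positivity
  obtain ⟨T0, hT03, hT0⟩ := size_cond A B hB
  refine ⟨Real.exp (|l| * (2 * b)) * (24 * Real.exp (2 * (2 * A ^ 2))), T0, hT03, ?_⟩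
  intro N i P H T hT x hx a
  obtain ⟨D, K, hD0, hD, hAK, hKD, hTT⟩ := hT0 T hT
  have hT3 : 3 ≤ T := hT03.trans hT
  have hlogT : 0 ≤ Real.log T := Real.log_nonneg (by linarith)
  set S : Finset ℕ := (range (x + 1)).filter Nat.Prime with hS
  set c : ℕ → ℂ := fun p => ((l / 2 : ℝ) : ℂ) * (ft N i P 0 p * (p:ℂ)⁻¹) with hc
  have hadm := adm_ft H 0
  have hcn : ∀ p, ‖c p‖ ≤ A * (p:ℝ)⁻¹ := by
    intro p
    simp only [hc]
    rw [norm_mul, norm_mul, norm_inv, Complex.norm_natCast, Complex.norm_real, Real.norm_eq_abs, abs_div,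
      abs_of_pos (by norm_num : (0:ℝ) < 2)]
    calc |l| / 2 * (‖ft N i P 0 p‖ * (p:ℝ)⁻¹) ≤ |l| / 2 * (b * (p:ℝ)⁻¹) := by
          apply mul_le_mul_of_nonneg_left _ (by positivity)
          exact mul_le_mul_of_nonneg_right (hadm.bd p) (by positivity)
      _ = _ := by rw [hAd]; ring
  have hSp : ∀ p ∈ S, p.Prime ∧ p ≤ x := by
    intro p hp
    rw [hS, mem_filter, mem_range] at hp
    exact ⟨hp.2, by omega⟩
  have hxD : (x:ℝ) ≤ Real.exp D := hx.trans hD
  have hlogx : Real.log x ≤ D := by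
    rcases Nat.eq_zero_or_pos x with h | h
    · rw [h]
      simpa using hD0
    · rw [Real.log_le_iff_le_exp (by exact_mod_cast h)]
      exact hxD
  have hV : ∑ p ∈ S, ‖c p‖ ^ 2 ≤ 2 * A ^ 2 := by
    calc ∑ p ∈ S, ‖c p‖ ^ 2 ≤ ∑ p ∈ S, A ^ 2 * ((p:ℝ) ^ 2)⁻¹ := by
          apply sum_le_sum
          intro p _
          have := pow_le_pow_left₀ (norm_nonneg _) (hcn p) 2
          rw [mul_pow, inv_pow] at this
          exact this
      _ ≤ ∑ p ∈ range (x + 1), A ^ 2 * ((p:ℝ) ^ 2)⁻¹ := by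
          apply sum_le_sum_of_subset_of_nonneg (filter_subset _ _)
          intro p _ _
          positivity
      _ = A ^ 2 * ∑ p ∈ range (x + 1), ((p:ℝ) ^ 2)⁻¹ := by rw [mul_sum]
      _ ≤ A ^ 2 * 2 := mul_le_mul_of_nonneg_left (sum_inv_sq x) (by positivity)
      _ = _ := by ring
  have hW : ∑ p ∈ S, ‖c p‖ ≤ (K + 1) / 2 := by
    have hH : ∑ d ∈ Icc 1 x, ((d:ℝ))⁻¹ ≤ 1 + Real.log x := by
      have h := harmonic_le_one_add_log x
      rw [harmonic_eq_sum_Icc] at h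
      push_cast at h
      exact h
    calc ∑ p ∈ S, ‖c p‖ ≤ ∑ p ∈ S, A * (p:ℝ)⁻¹ := sum_le_sum fun p _ => hcn p
      _ ≤ ∑ p ∈ Icc 1 x, A * (p:ℝ)⁻¹ := by
          apply sum_le_sum_of_subset_of_nonneg
          · intro p hp
            rw [mem_Icc]
            exact ⟨(hSp p hp).1.pos, (hSp p hp).2⟩
          · intro p _ _
            positivity
      _ = A * ∑ p ∈ Icc 1 x, (p:ℝ)⁻¹ := by rw [mul_sum]
      _ ≤ A * (1 + D) := by
          apply mul_le_mul_of_nonneg_left _ hA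
          linarith
      _ ≤ _ := hAK
  have hKT : ∀ k : ℕ, k ≤ K → 4 * (x:ℝ) ^ k * (1 + k * Real.log x) ≤ T := by
    intro k hk
    have hk' : (k:ℝ) ≤ K := by exact_mod_cast hk
    have h1 : (k:ℝ) * D ≤ Real.log T / 2 := (mul_le_mul_of_nonneg_right hk' hD0).trans hKD
    have h2 : (x:ℝ) ^ k ≤ Real.exp (Real.log T / 2) := by
      calc (x:ℝ) ^ k ≤ Real.exp D ^ k := pow_le_pow_left₀ (Nat.cast_nonneg x) hxD k
        _ = Real.exp (k * D) := by rw [← Real.exp_nat_mul]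
        _ ≤ _ := Real.exp_le_exp.mpr h1
    have h3 : (k:ℝ) * Real.log x ≤ Real.log T / 2 :=
      (mul_le_mul_of_nonneg_left hlogx (Nat.cast_nonneg k)).trans h1
    refine le_trans ?_ hTT
    have h4 : 0 ≤ (k:ℝ) * Real.log x := mul_nonneg (Nat.cast_nonneg k) (Real.log_natCast_nonneg x)
    apply mul_le_mul _ (by linarith) (by linarith) (by positivity)
    linarith
  have hmean := exp_mean S hSp c a (by linarith : (0:ℝ) ≤ T) hV K hW hKT
  have hpt : ∀ t : ℝ, ‖Yf N i P x t‖ ^ l ≤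
      Real.exp (|l| * (2 * b)) * ‖cexp (∑ p ∈ S, c p * ee (Real.log p) t)‖ ^ 2 := by
    intro t
    set G : ℂ := ∑ n ∈ range (x+1), Pool.H48.ER.gg N i P t n with hG
    have hGn : ‖G‖ ≤ 2 * b := by
      calc ‖G‖ ≤ ∑ n ∈ range (x+1), b * ((n:ℝ)^2)⁻¹ :=
            norm_sum_le_of_le _ fun n _ => Pool.H48.ER.norm_gg H t n
        _ = b * ∑ n ∈ range (x+1), ((n:ℝ)^2)⁻¹ := by rw [mul_sum]
        _ ≤ b * 2 := mul_le_mul_of_nonneg_left (sum_inv_sq x) (Nat.cast_nonneg b)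
        _ = _ := by ring
    have hw : ∑ p ∈ S, c p * ee (Real.log p) t = ((l / 2 : ℝ) : ℂ) * AA (ft N i P 0) x t := by
      unfold AA
      rw [mul_sum]
      apply sum_congr rfl
      intro p _
      simp only [hc]
      ring
    have h1 : ‖cexp (∑ p ∈ S, c p * ee (Real.log p) t)‖ ^ 2 = Real.exp (l * (AA (ft N i P 0) x t).re) := by
      rw [hw, Complex.norm_exp, Complex.re_ofReal_mul, ← Real.exp_nat_mul]
      congr 1
      push_cast
      ring
    have h2 : ‖Yf N i P x t‖ ^ l = Real.exp (l * (AA (ft N i P 0) x t).re) * Real.exp (l * G.re) := by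
      rw [Pool.H48.ER.Yf_eq H t x, Complex.norm_exp, ← Real.exp_mul, ← Real.exp_add]
      congr 1
      rw [Complex.add_re]
      ring
    rw [h1, h2, mul_comm]
    apply mul_le_mul_of_nonneg_right _ (Real.exp_pos _).le
    rw [Real.exp_le_exp]
    calc l * G.re ≤ |l * G.re| := le_abs_self _
      _ = |l| * |G.re| := abs_mul _ _
      _ ≤ |l| * (2 * b) := mul_le_mul_of_nonneg_left ((Complex.abs_re_le_norm G).trans hGn) (abs_nonneg l)
  have hFc : Continuous fun t : ℝ => ∑ p ∈ S, c p * ee (Real.log p) t :=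
    continuous_finsetSum _ fun p _ => (continuous_ee _).const_mul _
  calc ∫ t in a..(a + T), ‖Yf N i P x t‖ ^ l ≤
      ∫ t in a..(a + T), Real.exp (|l| * (2 * b)) * ‖cexp (∑ p ∈ S, c p * ee (Real.log p) t)‖ ^ 2 := by
        rw [intervalIntegral.integral_of_le (by linarith), intervalIntegral.integral_of_le (by linarith)]
        apply integral_mono_of_nonneg
        · filter_upwards with t
          positivity
        · have : IntervalIntegrable (fun t : ℝ => Real.exp (|l| * (2 * b)) *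
              ‖cexp (∑ p ∈ S, c p * ee (Real.log p) t)‖ ^ 2) volume a (a + T) := by
            apply Continuous.intervalIntegrable
            exact continuous_const.mul (hFc.cexp.norm.pow 2)
          rwa [intervalIntegrable_iff_integrableOn_Ioc_of_le (by linarith)] at this
        · filter_upwards with t
          exact hpt t
    _ = Real.exp (|l| * (2 * b)) *
        ∫ t in a..(a + T), ‖cexp (∑ p ∈ S, c p * ee (Real.log p) t)‖ ^ 2 := by
        rw [intervalIntegral.integral_const_mul]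
    _ ≤ Real.exp (|l| * (2 * b)) * (24 * Real.exp (2 * (2 * A ^ 2)) * T) :=
        mul_le_mul_of_nonneg_left hmean (Real.exp_pos _).le
    _ = _ := by ring

end Pool.Agent.H5.GR
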